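import Pool.Agent.W659.EC.Fin

/-!
# The gap between the Brown–Voiculescu entropy and the coloured entropies is unbounded

There is ONE separable unital C*-algebra `A` of decomposition rank and nuclear dimension zero (that
is, an AF algebra) such that for every real number `C` there is an inner automorphism `α` of `A`
with `ht(α) = 0`, while `ht_nuc(α) ≥ C` and `ht_dr(α) ≥ C`.

The automorphisms are the powers of the automorphism of the starting example: `ht` of a power is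
again zero by the polynomial bounds, and the exponential lower bounds for the coloured entropies
grow linearly with the exponent.
-/

set_option autoImplicit false

open scoped Matrix.Norms.L2Operator ENNReal Matrix

noncomputable section

namespace Pool.Agent.Results.MP_ec8bff_an.ArbitrarilyLargeGap

open Pool.Agent.W659.EC

/-- the powers of `wA` are unitary -/
theorem pow_star_mul (m : ℕ) : star (wA ^ m) * wA ^ m = 1 := by
  induction m with
  | zero => simp
  | succ m ih =>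
    rw [pow_succ, star_mul, mul_assoc, ← mul_assoc (star (wA ^ m)), ih, one_mul, wA_star_mul]

theorem pow_mul_star (m : ℕ) : wA ^ m * star (wA ^ m) = 1 := by
  induction m with
  | zero => simp
  | succ m ih =>
    rw [pow_succ', star_mul, mul_assoc, ← mul_assoc (wA ^ m), ih, one_mul, wA_mul_star]

/-- the inner automorphism `Ad (w^m)` -/
def be (m : ℕ) : AA →⋆ₙₐ[ℂ] AA where
  toFun a := wA ^ m * a * star (wA ^ m)
  map_smul' c a := by simp
  map_zero' := by simp
  map_add' a b := by rw [mul_add, add_mul]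
  map_mul' a b := by
    rw [show wA ^ m * a * star (wA ^ m) * (wA ^ m * b * star (wA ^ m)) =
      wA ^ m * a * (star (wA ^ m) * wA ^ m) * b * star (wA ^ m) by
      simp only [mul_assoc], pow_star_mul, mul_one, mul_assoc, mul_assoc, mul_assoc, mul_assoc]
  map_star' a := by simp [mul_assoc]

theorem al_iter (m : ℕ) (a : AA) : (al^[m]) a = be m a := by
  induction m with
  | zero =>
    change a = wA ^ 0 * a * star (wA ^ 0)
    simp
  | succ m ih =>
    rw [Function.iterate_succ_apply', ih]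
    change wA * (wA ^ m * a * star (wA ^ m)) * star wA = wA ^ (m + 1) * a * star (wA ^ (m + 1))
    rw [pow_succ' wA m, star_mul]
    simp only [mul_assoc]

theorem be_iter (m i : ℕ) (a : AA) : ((be m)^[i]) a = (al^[m * i]) a := by
  have h : (be m : AA → AA) = al^[m] := by
    funext b
    exact (al_iter m b).symm
  rw [h, ← Function.iterate_mul]

theorem HasCPA_mono {G H : Set AA} {ε : ℝ} {r : ℕ} (hGH : G ⊆ H) (h : HasCPA AA H ε r) :
    HasCPA AA G ε r := by
  obtain ⟨F, hF, ψ, φ, h1, h2, h3⟩ := h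
  exact ⟨F, hF, ψ, φ, h1, h2, fun a ha => h3 a (hGH ha)⟩

theorem HasDec_mono {d : ℕ} {G H : Set AA} {ε : ℝ} {r : ℕ} (hGH : G ⊆ H) (h : HasDec AA d H ε r) :
    HasDec AA d G ε r := by
  obtain ⟨F, hF, ψ, φ, h1, h2, h3⟩ := h
  exact ⟨F, hF, ψ, φ, h1, h2, fun a ha => h3 a (hGH ha)⟩

theorem ht_nonneg' (β : AA →⋆ₙₐ[ℂ] AA) : 0 ≤ ht β := by
  have h : ((0 : ℝ) : EReal) ≤ entropy (HasCPA AA) β := by
    refine le_entropy _ _ {1} (1 / 2) (by norm_num) 0 fun N => ⟨N + 1, by omega, by omega, ?_⟩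
    rintro r ⟨F, hF, ψ, φ, hψ, hφ, h⟩
    have h1 := h 1 ⟨0, by omega, 1, Finset.mem_singleton_self _, rfl⟩
    have h0 : 0 < r := by
      by_contra hc
      have hr : F.rank = 0 := by omega
      rw [FDA.rank, Finset.sum_eq_zero_iff] at hr
      have h2 : ψ 1 = 0 := by
        funext i
        have h3 := hr i (Finset.mem_univ _)
        rw [Fintype.card_eq_zero_iff] at h3
        ext a
        exact h3.elim a
      rw [h2, map_zero, zero_sub, norm_neg, CStarRing.norm_one] at h1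
      norm_num at h1
    refine ⟨h0, ?_⟩
    rw [mul_zero]
    exact Real.log_natCast_nonneg r
  rwa [EReal.coe_zero] at h

theorem ht_be (m : ℕ) (hm : 1 ≤ m) : ht (be m) = 0 := by
  refine le_antisymm (entropy_nonpos _ _ fun F ε hε => ?_) (ht_nonneg' _)
  obtain ⟨K, M, hKM⟩ := poly_growth F ε hε
  refine ⟨K * m ^ M, M, fun n hn => ?_⟩
  obtain ⟨r, hr, hrK⟩ := hKM (m * n) (Nat.mul_pos hm hn)
  refine ⟨r, HasCPA_mono ?_ hr, ?_⟩
  · rintro b ⟨i, hi, a, ha, rfl⟩
    exact ⟨m * i, Nat.mul_lt_mul_of_pos_left hi hm, a, ha, (be_iter m i a).symm⟩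
  · rw [mul_pow, ← mul_assoc] at hrK
    exact hrK

/-- the exponential lower bound of the starting example -/
theorem dec_bound (N r : ℕ)
    (h : HasDec AA 0 {b | ∃ i < 2 ^ (N + 1), ∃ a, (a = vA ∨ a = pA) ∧ (al^[i]) a = b} (1 / 10 ^ 6) r) :
    0 < r ∧ ((2 ^ (N + 1) : ℕ) : ℝ) * (Real.log 2 / 4) ≤ Real.log r := by
  obtain ⟨F, hF, ψ, φ, hψ, hφ, h⟩ := h
  refine log_bound ?_
  rw [← hF, Fin.sum_univ_one]
  set ψ0 : AA →ₗ[ℂ] (F 0).alg := LinearMap.proj 0 ∘ₗ ψ with hψ0
  have hψ0' : IsCPC ψ0 := by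
    refine ⟨(isCP_hom ((Pi.evalStarAlgHom ℂ (fun j : Fin (0 + 1) => (F j).alg) 0)) _
      fun _ => rfl).comp hψ.1, fun a => ?_⟩
    exact (norm_le_pi_norm (ψ a) 0).trans (hψ.2 a)
  refine rank_bound ψ0 (φ 0) hψ0' (hφ 0).1 (hφ 0).2 N (fun j hj => ?_) ?_
  · have := h ((al^[j]) vA) ⟨j, hj, vA, Or.inl rfl, rfl⟩
    rwa [Fin.sum_univ_one] at this
  · have := h pA ⟨0, by positivity, pA, Or.inr rfl, rfl⟩
    rwa [Fin.sum_univ_one] at this

theorem entropy_be (R : Set AA → ℝ → ℕ → Prop)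
    (hR : ∀ G ε r, R G ε r → HasDec AA 0 G ε r) (q : ℕ) :
    (((2 ^ q : ℕ) * (Real.log 2 / 4) : ℝ) : EReal) ≤ entropy R (be (2 ^ q)) := by
  classical
  refine le_entropy _ _ ((Finset.range (2 ^ q)).image (fun j => (al^[j]) vA) ∪
    (Finset.range (2 ^ q)).image (fun j => (al^[j]) pA)) (1 / 10 ^ 6) (by norm_num) _ fun N => ?_
  refine ⟨2 ^ (N + 1), (Nat.lt_two_pow_self.le.trans (Nat.pow_le_pow_right (by norm_num)
    (Nat.le_succ N))), Nat.one_le_two_pow, ?_⟩
  intro r hr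
  have hq : 0 < 2 ^ q := by positivity
  have h1 : HasDec AA 0 {b | ∃ i < 2 ^ ((N + q) + 1), ∃ a, (a = vA ∨ a = pA) ∧ (al^[i]) a = b}
      (1 / 10 ^ 6) r := by
    refine HasDec_mono ?_ (hR _ _ _ hr)
    rintro b ⟨i, hi, a, ha, rfl⟩
    refine ⟨i / 2 ^ q, ?_, (al^[i % 2 ^ q]) a, ?_, ?_⟩
    · rw [Nat.div_lt_iff_lt_mul hq, ← pow_add]
      rwa [show N + 1 + q = N + q + 1 by ring]
    · rcases ha with rfl | rfl
      · exact Finset.mem_union_left _ (Finset.mem_image.2
          ⟨i % 2 ^ q, Finset.mem_range.2 (Nat.mod_lt _ hq), rfl⟩)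
      · exact Finset.mem_union_right _ (Finset.mem_image.2
          ⟨i % 2 ^ q, Finset.mem_range.2 (Nat.mod_lt _ hq), rfl⟩)
    · rw [be_iter, ← Function.iterate_add_apply, Nat.div_add_mod]
  obtain ⟨h2, h3⟩ := dec_bound (N + q) r h1
  refine ⟨h2, le_trans (le_of_eq ?_) h3⟩
  push_cast
  ring

theorem htNuc_be (q : ℕ) : (((2 ^ q : ℕ) * (Real.log 2 / 4) : ℝ) : EReal) ≤ htNuc (be (2 ^ q)) := by
  refine le_iInf₂ fun d hd => ?_
  rw [nucDim_AA] at hd
  have hd0 : d = 0 := by exact_mod_cast hd.symm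
  subst hd0
  exact entropy_be _ (fun G ε r h => h) q

theorem htDr_be (q : ℕ) : (((2 ^ q : ℕ) * (Real.log 2 / 4) : ℝ) : EReal) ≤ htDr (be (2 ^ q)) := by
  refine le_iInf₂ fun d hd => ?_
  rw [decRank_AA] at hd
  have hd0 : d = 0 := by exact_mod_cast hd.symm
  subst hd0
  exact entropy_be _ (fun G ε r h => h.hasDec) q

/-- There is one separable unital C*-algebra `A` of decomposition rank and nuclear dimension zero
such that for every `C` there is an inner automorphism `α = Ad w` of `A` with `ht(α) = 0`,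
`ht_nuc(α) ≥ C` and `ht_dr(α) ≥ C`. -/
theorem result : ∃ (A : Type) (_ : CStarAlgebra A),
    TopologicalSpace.SeparableSpace A ∧ decRank A = 0 ∧ nucDim A = 0 ∧
    ∀ C : ℝ, ∃ (w : A) (α : A →⋆ₙₐ[ℂ] A),
      (star w * w = 1 ∧ w * star w = 1 ∧ ∀ a, α a = w * a * star w) ∧
      ht α = 0 ∧ (C : EReal) ≤ htNuc α ∧ (C : EReal) ≤ htDr α := by
  refine ⟨AA, instAA, inferInstance, decRank_AA, nucDim_AA, fun C => ?_⟩
  have hl : 0 < Real.log 2 / 4 := by
    have := Real.log_pos (by norm_num : (1 : ℝ) < 2)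
    positivity
  obtain ⟨q, hq⟩ := exists_nat_gt (C / (Real.log 2 / 4))
  have hC : C ≤ ((2 ^ q : ℕ) : ℝ) * (Real.log 2 / 4) := by
    rw [div_lt_iff₀ hl] at hq
    have h1 : (q : ℝ) ≤ ((2 ^ q : ℕ) : ℝ) := by exact_mod_cast Nat.lt_two_pow_self.le
    nlinarith
  have hC' : (C : EReal) ≤ (((2 ^ q : ℕ) * (Real.log 2 / 4) : ℝ) : EReal) :=
    EReal.coe_le_coe_iff.2 hC
  exact ⟨wA ^ (2 ^ q), be (2 ^ q), ⟨pow_star_mul _, pow_mul_star _, fun a => rfl⟩,
    ht_be _ Nat.one_le_two_pow, hC'.trans (htNuc_be q), hC'.trans (htDr_be q)⟩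

end Pool.Agent.Results.MP_ec8bff_an.ArbitrarilyLargeGap
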